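import Pool.Agent.Y386.IR.Stm2

/-!
# Project IR (helper386): a family of independent sets of the circular clique

Adapted from `Pool/Agent/Y154/IR/C5fam.lean` (helper154) and `Pool/Agent/Y195/IR/UBC.lean`
(helper195).
-/

set_option autoImplicit false

namespace Pool.Agent.Y255.IR

open Pool.Agent.Y386.IR Finset

/-- the `b` consecutive elements `i, i + 1, ..., i + b - 1` modulo `a` -/
def arc (a b : ℕ) (i : Fin a) : Finset (Fin a) :=
  univ.filter fun k => ((i : ℕ) ≤ k ∧ (k : ℕ) < i + b) ∨ (k : ℕ) + a < i + b

theorem mem_arc (a b : ℕ) (i k : Fin a) :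
    k ∈ arc a b i ↔ ((i : ℕ) ≤ k ∧ (k : ℕ) < i + b) ∨ (k : ℕ) + a < i + b := by
  unfold arc
  rw [Finset.mem_filter]
  exact and_iff_right (Finset.mem_univ k)

theorem card_arc (a b : ℕ) (hb : b ≤ a) (i : Fin a) : #(arc a b i) = b := by
  have h1 : (arc a b i).map Fin.valEmbedding =
      Finset.Ico (i : ℕ) (min (i + b) a) ∪ Finset.range (i + b - a) := by
    ext m
    simp only [Finset.mem_map, mem_arc, Fin.valEmbedding_apply, Finset.mem_union,
      Finset.mem_Ico, Finset.mem_range]
    have hi := i.2
    constructor
    · rintro ⟨k, hk, rfl⟩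
      have := k.2
      omega
    · intro h
      exact ⟨⟨m, by omega⟩, by simp only; omega, rfl⟩
  rw [← Finset.card_map Fin.valEmbedding, h1, Finset.card_union_of_disjoint, Nat.card_Ico,
    Finset.card_range]
  · have hi := i.2
    omega
  · rw [Finset.disjoint_left]
    intro m h2 h3
    rw [Finset.mem_Ico] at h2
    rw [Finset.mem_range] at h3
    omega

theorem arc_disj (a b : ℕ) (i j k : Fin a) (h : CA a b i j) (h1 : k ∈ arc a b i)
    (h2 : k ∈ arc a b j) : False := by
  rw [mem_arc] at h1 h2
  unfold CA at h
  have hi := i.2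
  have hj := j.2
  have hk := k.2
  omega

theorem t_FAM2 : S_FAM2 := by
  intro a b W y hb hab hyW hy
  refine ⟨fun s => univ.filter fun i => 2 * W ≤ 2 * y i + s.1 ∨
    ((s.1 : ℕ) < 2 * y i ∧ s.2 ∈ arc a b i), ?_, ?_⟩
  · rintro ⟨j, k⟩ i hi i' hi' hCA
    rw [Finset.mem_filter] at hi hi'
    have h1 := hy i i' hCA
    have hj := j.2
    rcases hi.2 with hu | ⟨hu, hku⟩ <;> rcases hi'.2 with hv | ⟨hv, hkv⟩
    · simp only at hu hv
      omega
    · simp only at hu hv
      omega
    · simp only at hu hv
      omega
    · exact arc_disj a b i i' k hCA hku hkv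
  · intro i
    have hxW : y i ≤ W := hyW i
    have hsub : (({j : Fin W | 2 * W ≤ 2 * y i + j} : Finset (Fin W)) ×ˢ
        (univ : Finset (Fin a))) ∪
        (({j : Fin W | ¬ (2 * W ≤ 2 * y i + j) ∧ (j : ℕ) < 2 * y i} : Finset (Fin W)) ×ˢ
          arc a b i) ⊆
        ({s | i ∈ univ.filter fun i => 2 * W ≤ 2 * y i + s.1 ∨
          ((s.1 : ℕ) < 2 * y i ∧ s.2 ∈ arc a b i)} : Finset (Fin W × Fin a)) := by
      rintro ⟨j, k⟩ ha
      simp only [Finset.mem_union, Finset.mem_product, Finset.mem_filter, Finset.mem_univ,
        true_and, and_true] at ha ⊢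
      rcases ha with ha | ⟨⟨_, h⟩, hk⟩
      · exact Or.inl ha
      · exact Or.inr ⟨h, hk⟩
    refine le_trans ?_ (Finset.card_le_card hsub)
    rw [Finset.card_union_of_disjoint]
    · rw [Finset.card_product, Finset.card_product, card_arc a b (by omega), Finset.card_univ,
        Fintype.card_fin]
      have e1 : #{j : Fin W | 2 * W ≤ 2 * y i + j} = 2 * y i - W := by
        have : ({j : Fin W | 2 * W ≤ 2 * y i + j} : Finset (Fin W)).map Fin.valEmbedding =
            Finset.Ico (2 * W - 2 * y i) W := by
          ext m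
          simp only [Finset.mem_map, Finset.mem_filter, Finset.mem_univ, true_and,
            Fin.valEmbedding_apply, Finset.mem_Ico]
          constructor
          · rintro ⟨j, hj, rfl⟩
            have := j.2
            omega
          · rintro ⟨h1, h2⟩
            exact ⟨⟨m, h2⟩, by simp only; omega, rfl⟩
        rw [← Finset.card_map Fin.valEmbedding, this, Nat.card_Ico]
        omega
      have e2 : #{j : Fin W | ¬ (2 * W ≤ 2 * y i + j) ∧ (j : ℕ) < 2 * y i} =
          min (2 * y i) (2 * W - 2 * y i) := by
        have : ({j : Fin W | ¬ (2 * W ≤ 2 * y i + j) ∧ (j : ℕ) < 2 * y i} :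
            Finset (Fin W)).map Fin.valEmbedding =
            Finset.range (min (min (2 * y i) (2 * W - 2 * y i)) W) := by
          ext m
          simp only [Finset.mem_map, Finset.mem_filter, Finset.mem_univ, true_and,
            Fin.valEmbedding_apply, Finset.mem_range]
          constructor
          · rintro ⟨j, hj, rfl⟩
            have := j.2
            omega
          · intro h1
            exact ⟨⟨m, by omega⟩, by simp only; omega, rfl⟩
        rw [← Finset.card_map Fin.valEmbedding, this, Finset.card_range]
        omega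
      rw [e1, e2]
      rcases le_total (2 * y i) W with h2 | h2
      · have e3 : min (2 * y i) (2 * W - 2 * y i) = 2 * y i := by omega
        have e4 : 2 * y i - W = 0 := by omega
        rw [e3, e4, zero_mul, zero_add]
        exact le_of_eq (by ring)
      · have e3 : min (2 * y i) (2 * W - 2 * y i) = 2 * W - 2 * y i := by omega
        have e4 : 2 * (2 * y i - W) + (2 * W - 2 * y i) = 2 * y i := by omega
        rw [e3]
        calc 2 * b * y i = b * (2 * y i) := by ring
          _ = b * (2 * (2 * y i - W) + (2 * W - 2 * y i)) := by rw [e4]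
          _ = (2 * y i - W) * (2 * b) + (2 * W - 2 * y i) * b := by ring
          _ ≤ (2 * y i - W) * a + (2 * W - 2 * y i) * b :=
              Nat.add_le_add_right (Nat.mul_le_mul_left _ hab.le) _
    · rw [Finset.disjoint_left]
      rintro ⟨j, k⟩ h1 h2
      simp only [Finset.mem_product, Finset.mem_filter, Finset.mem_univ, true_and,
        and_true] at h1 h2
      exact h2.1.1 h1

end Pool.Agent.Y255.IR
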